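import Mathlib

namespace Pool.Agent.Results.MP_55034c_pr.Range

open Finset

variable {V : Type} [Fintype V] [DecidableEq V]

/-- probability of a trajectory of length `t` of the chain started from `π` -/
def path (π : V → ℝ) (P : Matrix V V ℝ) {t : ℕ} (x : Fin (t + 1) → V) : ℝ :=
  π (x 0) * ∏ i : Fin t, P (x i.castSucc) (x i.succ)

/-- probability that one chain visits at least `y` states up to time `t` -/
noncomputable def single (π : V → ℝ) (P : Matrix V V ℝ) (t : ℕ) (y : ℝ) : ℝ :=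
  ∑ x : Fin (t + 1) → V, if y ≤ (univ.image x).card then path π P x else 0

/-- probability that `k` independent chains together visit at least `y` states -/
noncomputable def multi (π : V → ℝ) (P : Matrix V V ℝ) {k : ℕ} (t : Fin k → ℕ) (y : ℝ) : ℝ :=
  ∑ x : (i : Fin k) → Fin (t i + 1) → V,
    if y ≤ (univ.biUnion fun i => univ.image (x i)).card then ∏ i, path π P (x i) else 0

noncomputable def π₀ : Fin 5 → ℝ := ![2 / 100000, 4 / 100000, 4 / 100000, 4 / 100000, 99986 / 100000]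

noncomputable def P₀ : Matrix (Fin 5) (Fin 5) ℝ :=
  !![1 / 2, 1 / 2, 0, 0, 0; 1 / 4, 1 / 2, 1 / 4, 0, 0; 0, 1 / 4, 1 / 2, 1 / 4, 0;
    0, 0, 1 / 4, 1 / 2, 1 / 4; 0, 0, 0, 1 / 99986, 99985 / 99986]

theorem hπ (a : Fin 5) : 0 < π₀ a := by fin_cases a <;> simp [π₀]

theorem hP (a b : Fin 5) : 0 ≤ P₀ a b := by
  fin_cases a <;> fin_cases b <;> simp [P₀] <;> norm_num

theorem hrow (a : Fin 5) : ∑ b, P₀ a b = 1 := by
  fin_cases a <;> simp [P₀, Fin.sum_univ_succ] <;> norm_num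

theorem hsum : ∑ a, π₀ a = 1 := by simp [π₀, Fin.sum_univ_succ]; norm_num

theorem path_nonneg {t : ℕ} (x : Fin (t + 1) → Fin 5) : 0 ≤ path π₀ P₀ x :=
  mul_nonneg (hπ _).le (prod_nonneg fun _ _ => hP _ _)

theorem total : ∑ x : Fin (2 + 1) → Fin 5, path π₀ P₀ x = 1 := by
  let e : Fin 5 × Fin 5 × Fin 5 ≃ (Fin (2 + 1) → Fin 5) :=
    ⟨fun p => ![p.1, p.2.1, p.2.2], fun x => (x 0, x 1, x 2), fun _ => rfl,
      fun x => by funext i; fin_cases i <;> rfl⟩
  rw [← e.sum_comp]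
  have : ∀ p : Fin 5 × Fin 5 × Fin 5, path π₀ P₀ (e p) = π₀ p.1 * (P₀ p.1 p.2.1 * P₀ p.2.1 p.2.2) :=
    fun p => by simp [path, e, Fin.prod_univ_two]
  simp only [this, Fintype.sum_prod_type, ← mul_sum, hrow, mul_one, hsum]

theorem result : ∃ (π : Fin 5 → ℝ) (P : Matrix (Fin 5) (Fin 5) ℝ),
    (∀ a, 0 < π a) ∧ ∑ a, π a = 1 ∧ (∀ a b, 0 ≤ P a b) ∧ (∀ a, ∑ b, P a b = 1) ∧
    (∀ a b, π a * P a b = π b * P b a) ∧ P.IsPrimitive ∧ (∀ a, 1 / 2 ≤ P a a) ∧
    multi π P (fun _ : Fin 2 => 2) 5 < single π P (2 + 2) 5 := by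
  refine ⟨π₀, P₀, hπ, hsum, hP, hrow, fun a b => ?_, ⟨hP, 4, by norm_num, fun a b => ?_⟩, fun a => ?_, ?_⟩
  · fin_cases a <;> fin_cases b <;> simp [P₀, π₀] <;> norm_num
  · fin_cases a <;> fin_cases b <;>
      simp [P₀, pow_succ, Matrix.mul_apply, Fin.sum_univ_succ] <;>
      norm_num
  · fin_cases a <;> simp [P₀]
    norm_num
  have h1 : path π₀ P₀ (t := 4) ![0, 1, 2, 3, 4] ≤ single π₀ P₀ (2 + 2) 5 := by
    refine le_trans (le_of_eq ?_) (single_le_sum (f := fun x : Fin (2 + 2 + 1) → Fin 5 =>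
      if (5 : ℝ) ≤ (univ.image x).card then path π₀ P₀ x else 0)
      (fun x _ => by split_ifs; exacts [path_nonneg x, le_rfl]) (mem_univ ![0, 1, 2, 3, 4]))
    have : (univ.image (![0, 1, 2, 3, 4] : Fin (2 + 2 + 1) → Fin 5)).card = 5 := by decide
    simp only [this]
    rw [if_pos (by norm_num)]
  have h2 : multi π₀ P₀ (fun _ : Fin 2 => 2) 5 ≤ ∏ _i : Fin 2,
      ∑ x : Fin (2 + 1) → Fin 5, if x = fun _ => 4 then 0 else path π₀ P₀ x := by
    rw [prod_univ_sum, Fintype.piFinset_univ]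
    refine sum_le_sum fun x _ => ?_
    split_ifs with h
    · refine le_of_eq (prod_congr rfl fun i _ => ?_)
      rw [if_neg]
      intro hx
      have c1 : ∀ j, (univ.image (x j)).card ≤ 3 := fun j => card_image_le
      have c2 : (univ.image (x i)).card ≤ 1 := by
        rw [hx]; exact card_le_one.2 fun a ha b hb => by
          simp only [mem_image] at ha hb
          obtain ⟨_, _, rfl⟩ := ha
          obtain ⟨_, _, rfl⟩ := hb
          rfl
      have c3 := card_biUnion_le (s := univ) (t := fun i => univ.image (x i))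
      have c4 : 5 ≤ (univ.biUnion fun i => univ.image (x i)).card := by exact_mod_cast h
      rw [Fin.sum_univ_two] at c3
      have := c1 0
      have := c1 1
      fin_cases i <;> simp only [Fin.zero_eta, Fin.mk_one, Fin.isValue] at c2 <;> omega
    · exact prod_nonneg fun i _ => by split_ifs; exacts [le_rfl, path_nonneg _]
  have h3 : (∑ x : Fin (2 + 1) → Fin 5, if x = fun _ => 4 then 0 else path π₀ P₀ x) =
      1 - path π₀ P₀ (t := 2) fun _ => 4 := by
    rw [← total, eq_sub_iff_add_eq, ← sum_ite_eq' univ (fun _ => (4 : Fin 5)) (path π₀ P₀ (t := 2))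
      |>.trans (if_pos (mem_univ _)), ← sum_add_distrib]
    exact sum_congr rfl fun x _ => by split_ifs <;> simp
  refine (h2.trans_lt ?_).trans_le h1
  rw [h3]
  simp [path, π₀, P₀, Fin.prod_univ_succ]
  norm_num

end Pool.Agent.Results.MP_55034c_pr.Range
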